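import Pool.Agent.Y655.PS.Kum0

/-!
# Project PS (helper157): characters of the inertia group and conjugation by Frobenius
-/

set_option autoImplicit false

namespace Pool.Agent.Y655.PS

open Pool.Agent.Y157.PS Finset

section claim

variable {k κ : Type} [Field k] [Field κ] [Algebra k κ] [Algebra.IsAlgebraic k κ]
  (V : ValuationSubring κ)

/-- the values of the elements fixed by `II V δ` -/
lemma val_claim {ℓ : ℕ} [hℓ : Fact ℓ.Prime] (hℓV : IsU V (ℓ : κ)) {π δ π1 : κ}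
    (hδ0 : δ ≠ 0) (hδk : ∃ d : k, δ ^ ℓ = algebraMap k κ d)
    (hπ1 : V.valuation π1 ^ ℓ = V.valuation π)
    (hine : ∀ c : κ, c ≠ 0 → (∀ σ : κ ≃ₐ[k] κ, Ine V σ → σ c = c) →
      ∃ j : ℤ, V.valuation c = V.valuation π ^ j) (_hπ : V.valuation π ≠ 0)
    {c : κ} (hc : c ≠ 0) (hfix : ∀ σ ∈ II (k := k) V δ, σ c = c) :
    ∃ i : ℤ, V.valuation c = V.valuation π1 ^ i := by
  have hℓ0 : ℓ ≠ 0 := hℓ.out.ne_zero
  obtain ⟨d, hd⟩ := hδk
  have hz : ∀ σ : κ ≃ₐ[k] κ, (σ δ / δ) ^ ℓ = 1 := by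
    intro σ
    rw [div_pow, ← map_pow, hd, AlgEquiv.commutes, div_self]
    rw [← hd]
    exact pow_ne_zero _ hδ0
  have hvc : V.valuation c ≠ 0 := (V.valuation.ne_zero_iff).2 hc
  have hfin : ∀ N : κ, (∀ σ : κ ≃ₐ[k] κ, Ine V σ → σ N = N) →
      V.valuation N = V.valuation c ^ ℓ → ∃ i : ℤ, V.valuation c = V.valuation π1 ^ i := by
    intro N hN hv
    have hN0 : N ≠ 0 := by
      rintro rfl
      rw [map_zero] at hv
      exact pow_ne_zero _ hvc hv.symm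
    obtain ⟨j, hj⟩ := hine N hN0 hN
    refine ⟨j, ?_⟩
    have h1 : V.valuation c ^ ℓ = (V.valuation π1 ^ j) ^ ℓ := by
      rw [← hv, hj, ← hπ1, ← zpow_natCast, ← zpow_natCast, ← zpow_mul, ← zpow_mul, mul_comm]
    exact (pow_left_inj₀ zero_le zero_le hℓ0).1 h1
  by_cases hcase : ∀ τ : κ ≃ₐ[k] κ, Ine V τ → τ δ = δ
  · refine hfin (c ^ ℓ) (fun σ hσ => ?_) (by rw [map_pow])
    rw [map_pow, hfix σ ⟨hσ, hcase σ hσ⟩]
  · push Not at hcase
    obtain ⟨τ, hτ, hτδ⟩ := hcase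
    -- the root of unity of `τ`
    obtain ⟨ζ, hζ⟩ : ∃ ζ : κ, ζ = τ δ / δ := ⟨_, rfl⟩
    have hζℓ : ζ ^ ℓ = 1 := by rw [hζ]; exact hz τ
    have hζ1 : ζ ≠ 1 := by
      rw [hζ]
      intro h
      exact hτδ ((div_eq_one_iff_eq hδ0).1 h)
    have hprim : IsPrimitiveRoot ζ ℓ := by
      rw [← orderOf_eq_prime hζℓ hζ1]
      exact IsPrimitiveRoot.orderOf ζ
    have hτδ' : τ δ = ζ * δ := by rw [hζ, div_mul_cancel₀ _ hδ0]
    have hroot : ∀ σ : κ ≃ₐ[k] κ, Ine V σ → ∀ i : ℕ, σ (ζ ^ i) = ζ ^ i := by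
      intro σ hσ i
      rw [map_pow, ine_root V hℓ0 hℓV hσ hζℓ]
    have hτi : ∀ i : ℕ, (τ ^ i) δ = ζ ^ i * δ := by
      intro i
      induction i with
      | zero => simp
      | succ i ih =>
        rw [pow_succ', AlgEquiv.mul_apply, ih, map_mul, hroot τ hτ, hτδ', pow_succ]
        ring
    -- two inertia elements which agree on `δ` agree on `c`
    have hagree : ∀ σ σ' : κ ≃ₐ[k] κ, Ine V σ → Ine V σ' → σ δ = σ' δ → σ c = σ' c := by
      intro σ σ' h1 h2 h3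
      have h4 : σ⁻¹ * σ' ∈ II (k := k) V δ := by
        refine ⟨ine_mul V (ine_inv V h1) h2, ?_⟩
        show σ⁻¹ (σ' δ) = δ
        rw [← h3]
        exact σ.symm_apply_apply δ
      have h5 := hfix _ h4
      have h6 : σ (σ⁻¹ (σ' c)) = σ' c := σ.apply_symm_apply _
      have h7 : σ⁻¹ (σ' c) = c := h5
      rw [h7] at h6
      exact h6
    refine hfin (∏ i ∈ range ℓ, (τ ^ i) c) ?_ ?_
    · -- `τ` fixes the product
      have h1 : τ (∏ i ∈ range ℓ, (τ ^ i) c) = ∏ i ∈ range ℓ, (τ ^ i) c := by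
        rw [map_prod]
        have e1 : ∀ i ∈ range ℓ, τ ((τ ^ i) c) = (τ ^ (i + 1)) c := fun i _ => by
          rw [pow_succ']; rfl
        rw [prod_congr rfl e1]
        have e2 := prod_range_succ (fun i => (τ ^ i) c) ℓ
        rw [prod_range_succ'] at e2
        have e3 : (τ ^ ℓ) c = c := by
          have : (τ ^ ℓ) c = (1 : κ ≃ₐ[k] κ) c := by
            refine hagree _ _ (ine_pow V hτ ℓ) (ine_one V) ?_
            rw [hτi, hζℓ, one_mul]; rfl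
          exact this
        rw [e3, pow_zero, AlgEquiv.one_apply] at e2
        exact mul_right_cancel₀ hc e2
      intro σ hσ
      obtain ⟨a, -, ha⟩ := hprim.eq_pow_of_pow_eq_one (hz σ)
      have hσδ : σ δ = (τ ^ a) δ := by
        rw [hτi, ha, div_mul_cancel₀ _ hδ0]
      have h2 : ∀ a : ℕ, (τ ^ a) (∏ i ∈ range ℓ, (τ ^ i) c) = ∏ i ∈ range ℓ, (τ ^ i) c := by
        intro a
        induction a with
        | zero => rfl
        | succ a ih => rw [pow_succ', AlgEquiv.mul_apply, ih, h1]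
      have h3 : ∀ i ∈ range ℓ, σ ((τ ^ i) c) = (τ ^ a) ((τ ^ i) c) := by
        intro i _
        have : (σ * τ ^ i) c = (τ ^ a * τ ^ i) c := by
          refine hagree _ _ (ine_mul V hσ (ine_pow V hτ i))
            (ine_mul V (ine_pow V hτ a) (ine_pow V hτ i)) ?_
          show σ ((τ ^ i) δ) = (τ ^ a) ((τ ^ i) δ)
          rw [hτi, map_mul, map_mul, hroot σ hσ, hroot _ (ine_pow V hτ a), hσδ]
        exact this
      rw [map_prod, prod_congr rfl h3, ← map_prod, h2 a]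
    · rw [map_prod]
      have : ∀ i ∈ range ℓ, V.valuation ((τ ^ i) c) = V.valuation c := fun i _ =>
        dec_val V (dec_pow V hτ.1 i) c
      rw [prod_congr rfl this, prod_const, card_range]

end claim

theorem kum : S_INE → S_KUM := by
  intro hINE ℓ hℓ A k κ _ _ _ _ _ _ _ _ _ _ _ _ _ V ϖ δ m hB φ hφ hφδ n χ hχ1 hχ2 hχE σ hσ hσδ
  obtain ⟨q, hq⟩ : ∃ q : ℕ, q = Nat.card (IsLocalRing.ResidueField A) := ⟨_, rfl⟩
  rw [← hq] at hφ ⊢
  have : Algebra.IsAlgebraic k κ := IsAlgClosure.isAlgebraic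
  have : IsAlgClosed κ := IsAlgClosure.isAlgClosed k
  have : Normal k κ := IsAlgClosure.normal k κ
  have : IsGalois k κ := IsGalois.mk
  have hℓ0 : ℓ ≠ 0 := hℓ.out.ne_zero
  -- `ℓ` is a unit
  have hℓV : IsU V (ℓ : κ) := by
    obtain ⟨u, hu⟩ := hB.lunit
    have h1 : (ℓ : κ) * algebraMap A κ (↑u⁻¹ : A) = 1 := by
      rw [← map_natCast (algebraMap A κ) ℓ, ← map_mul, ← hu, Units.mul_inv, map_one]
    refine ⟨left_ne_zero_of_mul_eq_one h1, ?_, ?_⟩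
    · rw [← map_natCast (algebraMap A κ) ℓ]; exact hB.mem _
    · rw [← eq_inv_of_mul_eq_one_right h1]; exact hB.mem _
  obtain ⟨N, hN⟩ : ∃ N : ℕ, N = ℓ ^ n := ⟨_, rfl⟩
  have hN0 : N ≠ 0 := by rw [hN]; exact pow_ne_zero _ hℓ0
  have hNV : IsU V (N : κ) := by
    rw [hN, Nat.cast_pow]; exact isU_pow V hℓV n
  rw [← hN] at hχ1
  -- the uniformisers
  obtain ⟨π, hπ⟩ : ∃ π : κ, π = algebraMap A κ ϖ := ⟨_, rfl⟩
  have hinjA : Function.Injective (algebraMap A κ) := by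
    rw [IsScalarTower.algebraMap_eq A k κ]
    exact (algebraMap k κ).injective.comp (IsFractionRing.injective A k)
  have hπ0 : π ≠ 0 := by
    rw [hπ, Ne, map_eq_zero_iff _ hinjA]
    exact hB.irr.ne_zero
  have hπfix : ∀ σ : κ ≃ₐ[k] κ, σ π = π := by
    intro σ
    rw [hπ, IsScalarTower.algebraMap_apply A k κ, AlgEquiv.commutes]
  have hvπ : V.valuation π ≠ 0 := (V.valuation.ne_zero_iff).2 hπ0
  have hδ0 : δ ≠ 0 := by
    rintro rfl
    have := hB.δv.1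
    rw [zero_pow hℓ0, zero_div] at this
    exact this rfl
  have hvδ0 : V.valuation δ ≠ 0 := (V.valuation.ne_zero_iff).2 hδ0
  have hvδ : V.valuation δ ^ ℓ = V.valuation π ^ m := by
    have h1 := (isU_iff V).1 hB.δv
    rw [← hπ, map_div₀, map_pow, map_zpow₀, div_eq_one_iff_eq (zpow_ne_zero _ hvπ)] at h1
    exact h1
  obtain ⟨b, a, hab⟩ : IsCoprime (ℓ : ℤ) m :=
    ((Nat.prime_iff_prime_int.1 hℓ.out).irreducible.coprime_iff_not_dvd).2 hB.cop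
  obtain ⟨π1, hπ1⟩ : ∃ π1 : κ, π1 = δ ^ a * π ^ b := ⟨_, rfl⟩
  have hπ10 : π1 ≠ 0 := by rw [hπ1]; exact mul_ne_zero (zpow_ne_zero _ hδ0) (zpow_ne_zero _ hπ0)
  have hvπ1 : V.valuation π1 ^ ℓ = V.valuation π := by
    have e1 : (V.valuation δ ^ a) ^ ℓ = V.valuation π ^ (m * a) := by
      rw [← zpow_natCast, ← zpow_mul, mul_comm a, zpow_mul, zpow_natCast, hvδ, ← zpow_mul]
    have e2 : (V.valuation π ^ b) ^ ℓ = V.valuation π ^ (b * (ℓ : ℤ)) := by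
      rw [← zpow_natCast, ← zpow_mul]
    rw [hπ1, map_mul, map_zpow₀, map_zpow₀, mul_pow, e1, e2, ← zpow_add₀ hvπ]
    have : m * a + b * (ℓ : ℤ) = 1 := by rw [← hab]; ring
    rw [this, zpow_one]
  have hπ1fix : ∀ σ : κ ≃ₐ[k] κ, σ δ = δ → σ π1 = π1 := by
    intro σ h
    rw [hπ1, map_mul, map_zpow₀, map_zpow₀, h, hπfix]
  -- the Kummer generator
  obtain ⟨E, hEf, hE⟩ := hχE
  obtain ⟨c, hc, hcχ⟩ := resolvent (II (k := k) V δ) χ
    (fun σ hσ => by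
      have := hχ1 σ hσ.1 hσ.2
      intro h
      rw [h, zero_pow hN0] at this
      exact zero_ne_one this)
    (fun σ hσ σ' hσ' => hχ2 σ σ' hσ.1 hσ.2 hσ'.1 hσ'.2)
    (fun σ hσ σ' hσ' => ine_root V hN0 hNV hσ.1 (hχ1 σ' hσ'.1 hσ'.2)) E
    (fun σ h1 h2 => hE σ h1 h2.1 h2.2)
  have hcN : ∀ σ ∈ II (k := k) V δ, σ (c ^ N) = c ^ N := by
    intro σ hσ
    rw [map_pow, hcχ σ hσ, mul_pow, hχ1 σ hσ.1 hσ.2, one_mul]
  obtain ⟨i, hi⟩ := val_claim (k := k) V hℓV hδ0 hB.δk hvπ1 (fun c hc hfix => by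
    obtain ⟨j, hj⟩ := hINE A k κ V ϖ hB.mem hB.non hB.irr c hc hfix
    refine ⟨j, ?_⟩
    rw [isU_iff, ← hπ, map_div₀, map_zpow₀, div_eq_one_iff_eq (zpow_ne_zero _ hvπ)] at hj
    exact hj) hvπ (pow_ne_zero N hc) hcN
  -- the unit and its root
  obtain ⟨ρ, hρ⟩ : ∃ ρ : κ, ρ ^ N = c ^ N / π1 ^ i := IsAlgClosed.exists_pow_nat_eq _ (Nat.pos_of_ne_zero hN0)
  have hρU : IsU V ρ := by
    refine isU_of_pow V hN0 ?_
    rw [hρ, isU_iff, map_div₀, map_zpow₀, hi, div_self]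
    exact zpow_ne_zero _ ((V.valuation.ne_zero_iff).2 hπ10)
  have hρfix : ∀ σ ∈ II (k := k) V δ, σ ρ = ρ := by
    intro σ hσ
    have h1 : (σ ρ / ρ) ^ N = 1 := by
      have h2 : σ (ρ ^ N) = ρ ^ N := by
        rw [hρ, map_div₀, map_zpow₀, hcN σ hσ, hπ1fix σ hσ.2]
      rw [div_pow, ← map_pow, h2, div_self (pow_ne_zero _ hρU.1)]
    have h2 : σ ρ / ρ = 1 := by
      refine root_one V hNV h1 ?_
      have : σ ρ / ρ - 1 = ρ⁻¹ * (σ ρ - ρ) := by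
        have := hρU.1
        field_simp
      rw [this]
      exact mem_mul_non V hρU.2.2 (hσ.1.2 ρ hρU.2.1)
    exact (div_eq_one_iff_eq hρU.1).1 h2
  obtain ⟨c', hc'⟩ : ∃ c' : κ, c' = c / ρ := ⟨_, rfl⟩
  have hc'0 : c' ≠ 0 := by rw [hc']; exact div_ne_zero hc hρU.1
  have hc'χ : ∀ σ ∈ II (k := k) V δ, σ c' = χ σ * c' := by
    intro σ hσ
    rw [hc', map_div₀, hcχ σ hσ, hρfix σ hσ, mul_div_assoc]
  have hc'N : c' ^ N = π1 ^ i := by
    rw [hc', div_pow, hρ]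
    have := pow_ne_zero N hc
    have := zpow_ne_zero i hπ10
    field_simp
  have hmem : σ ∈ II (k := k) V δ := ⟨hσ, hσδ⟩
  have hφinvδ : φ⁻¹ δ = δ := by
    have : φ⁻¹ (φ δ) = δ := φ.symm_apply_apply δ
    rwa [hφδ] at this
  have hmem' : φ * σ * φ⁻¹ ∈ II (k := k) V δ := by
    refine ⟨ine_conj V hφ.1 hσ, ?_⟩
    show φ (σ (φ⁻¹ δ)) = δ
    rw [hφinvδ, hσδ, hφδ]
  -- `φ⁻¹ c' = ξ c'`
  obtain ⟨ξ, hξ⟩ : ∃ ξ : κ, ξ = φ⁻¹ c' / c' := ⟨_, rfl⟩
  have hξN : ξ ^ N = 1 := by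
    have : φ⁻¹ (c' ^ N) = c' ^ N := by rw [hc'N, map_zpow₀, hπ1fix _ hφinvδ]
    rw [hξ, div_pow, ← map_pow, this, div_self (pow_ne_zero _ hc'0)]
  have hξc : φ⁻¹ c' = ξ * c' := by rw [hξ, div_mul_cancel₀ _ hc'0]
  have h1 : (φ * σ * φ⁻¹) c' = φ (χ σ) * c' := by
    show φ (σ (φ⁻¹ c')) = φ (χ σ) * c'
    rw [hξc, map_mul, ine_root V hN0 hNV hσ hξN, hc'χ σ hmem]
    have : ξ * (χ σ * c') = χ σ * (ξ * c') := by ring
    rw [this, map_mul, ← hξc]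
    congr 1
    exact φ.apply_symm_apply c'
  have h2 := hc'χ _ hmem'
  rw [h1] at h2
  rw [← mul_right_cancel₀ hc'0 h2]
  -- Frobenius on roots of unity
  have hχσ := hχ1 σ hσ hσδ
  have hU : IsU V (χ σ) := isU_of_pow V hN0 (by rw [hχσ, isU_iff, map_one])
  have h3 : φ (χ σ) / χ σ ^ q = 1 := by
    refine root_one V hNV ?_ ?_
    · rw [div_pow, ← map_pow, hχσ, map_one, ← pow_mul, mul_comm, pow_mul, hχσ, one_pow, div_one]
    · have : φ (χ σ) / χ σ ^ q - 1 = (χ σ ^ q)⁻¹ * (φ (χ σ) - χ σ ^ q) := by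
        have := pow_ne_zero q hU.1
        field_simp
      rw [this]
      exact mem_mul_non V (isU_pow V hU q).2.2 (hφ.2 _ hU.2.1)
  exact (div_eq_one_iff_eq (pow_ne_zero q hU.1)).1 h3

end Pool.Agent.Y655.PS
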