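import Pool.Agent.Y157.PS.Stm

/-!
# Project PS (helper157): valuation rings and automorphisms, basic facts; the resolvent
-/

set_option autoImplicit false

namespace Pool.Agent.Y655.PS

open Pool.Agent.Y157.PS Finset

section val

variable {κ : Type} [Field κ] (V : ValuationSubring κ)

lemma isU_iff {x : κ} : IsU V x ↔ V.valuation x = 1 := by
  constructor
  · rintro ⟨h0, h1, h2⟩
    have a := (V.valuation_le_one_iff x).2 h1
    have b := (V.valuation_le_one_iff x⁻¹).2 h2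
    rw [map_inv₀] at b
    have hx : V.valuation x ≠ 0 := (V.valuation.ne_zero_iff).2 h0
    exact le_antisymm a ((inv_le_one₀ (zero_lt_iff.2 hx)).1 b)
  · intro h
    have h0 : x ≠ 0 := by rintro rfl; simp at h
    refine ⟨h0, (V.valuation_le_one_iff x).1 h.le, (V.valuation_le_one_iff _).1 ?_⟩
    rw [map_inv₀, h, inv_one]

lemma non_iff {x : κ} : x ∈ V.nonunits ↔ V.valuation x < 1 := V.mem_nonunits_iff

lemma non_neg {x : κ} (h : x ∈ V.nonunits) : -x ∈ V.nonunits := by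
  rw [non_iff] at h ⊢; rwa [Valuation.map_neg]

lemma non_add {x y : κ} (h : x ∈ V.nonunits) (h' : y ∈ V.nonunits) : x + y ∈ V.nonunits := by
  rw [non_iff] at *; exact Valuation.map_add_lt _ h h'

lemma non_mem {x : κ} (h : x ∈ V.nonunits) : x ∈ V :=
  (V.valuation_le_one_iff x).1 ((non_iff V).1 h).le

lemma mem_mul_non {x y : κ} (h : x ∈ V) (h' : y ∈ V.nonunits) : x * y ∈ V.nonunits := by
  rw [non_iff] at *
  rw [map_mul]
  exact (mul_le_of_le_one_left' ((V.valuation_le_one_iff x).2 h)).trans_lt h'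

/-- nonunits in terms of membership -/
lemma non_iff' {x : κ} : x ∈ V.nonunits ↔ x = 0 ∨ x⁻¹ ∉ V := by
  rw [non_iff]
  constructor
  · intro h
    by_cases h0 : x = 0
    · exact Or.inl h0
    · right
      intro h1
      have h2 := (V.valuation_le_one_iff _).2 h1
      rw [map_inv₀, inv_le_one₀ (zero_lt_iff.2 ((V.valuation.ne_zero_iff).2 h0))] at h2
      exact absurd h (not_lt.2 h2)
  · rintro (h | h)
    · rw [h, map_zero]; exact zero_lt_one
    · by_contra h1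
      apply h
      have h2 : 1 ≤ V.valuation x := not_lt.1 h1
      rw [← V.valuation_le_one_iff, map_inv₀, inv_le_one₀ (lt_of_lt_of_le zero_lt_one h2)]
      exact h2

lemma isU_mul {x y : κ} (h : IsU V x) (h' : IsU V y) : IsU V (x * y) := by
  rw [isU_iff] at *; rw [map_mul, h, h', one_mul]

lemma isU_inv {x : κ} (h : IsU V x) : IsU V x⁻¹ := by
  rw [isU_iff] at *; rw [map_inv₀, h, inv_one]

lemma isU_pow {x : κ} (h : IsU V x) (n : ℕ) : IsU V (x ^ n) := by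
  rw [isU_iff] at *; rw [map_pow, h, one_pow]

lemma isU_of_pow {x : κ} {n : ℕ} (hn : n ≠ 0) (h : IsU V (x ^ n)) : IsU V x := by
  rw [isU_iff] at *
  rw [map_pow] at h
  exact (pow_eq_one_iff_of_nonneg zero_le hn).1 h

/-- a root of unity of order invertible in `V` which is `1` modulo the maximal ideal -/
lemma root_one {N : ℕ} (hN : IsU V (N : κ)) {ξ : κ} (h1 : ξ ^ N = 1) (h2 : ξ - 1 ∈ V.nonunits) :
    ξ = 1 := by
  by_contra h
  have h3 : ∑ i ∈ range N, ξ ^ i = 0 := by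
    have := geom_sum_mul ξ N
    rw [h1, sub_self] at this
    exact (mul_eq_zero.1 this).resolve_right (sub_ne_zero.2 h)
  have hξ : ξ ∈ V := by
    have : ξ = (ξ - 1) + 1 := by ring
    rw [this]
    exact add_mem (non_mem V h2) (one_mem _)
  have h4 : ∀ i : ℕ, ξ ^ i - 1 ∈ V.nonunits := by
    intro i
    induction i with
    | zero => rw [pow_zero, sub_self, non_iff, map_zero]; exact zero_lt_one
    | succ i ih =>
      have : ξ ^ (i + 1) - 1 = ξ * (ξ ^ i - 1) + (ξ - 1) := by ring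
      rw [this]
      exact non_add V (mem_mul_non V hξ ih) h2
  have h5 : (N : κ) = ∑ i ∈ range N, (-(ξ ^ i - 1)) := by
    have : ∑ i ∈ range N, (-(ξ ^ i - 1)) = ∑ i ∈ range N, (1 : κ) - ∑ i ∈ range N, ξ ^ i := by
      rw [← Finset.sum_sub_distrib]
      exact Finset.sum_congr rfl fun i _ => by ring
    rw [this, h3, sub_zero, Finset.sum_const, card_range, nsmul_eq_mul, mul_one]
  have h6 : V.valuation (N : κ) < 1 := by
    rw [h5]
    exact Valuation.map_sum_lt _ one_ne_zero fun i _ => (non_iff V).1 (non_neg V (h4 i))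
  rw [isU_iff] at hN
  exact absurd h6 (by rw [hN]; exact lt_irrefl _)

end val

section aut

variable {k κ : Type} [Field k] [Field κ] [Algebra k κ] (V : ValuationSubring κ)

lemma dec_one : Dec V (1 : κ ≃ₐ[k] κ) := fun _ => Iff.rfl

lemma dec_mul {σ τ : κ ≃ₐ[k] κ} (h : Dec V σ) (h' : Dec V τ) : Dec V (σ * τ) :=
  fun z => (h (τ z)).trans (h' z)

lemma dec_inv {σ : κ ≃ₐ[k] κ} (h : Dec V σ) : Dec V σ⁻¹ := fun z => by
  rw [← h (σ⁻¹ z)]
  have : σ (σ⁻¹ z) = z := σ.apply_symm_apply z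
  rw [this]

lemma dec_non {σ : κ ≃ₐ[k] κ} (h : Dec V σ) (z : κ) : σ z ∈ V.nonunits ↔ z ∈ V.nonunits := by
  rw [non_iff', non_iff', ← map_inv₀, h, map_eq_zero_iff σ σ.injective]

lemma dec_U {σ : κ ≃ₐ[k] κ} (h : Dec V σ) {z : κ} (hz : IsU V z) : IsU V (σ z) := by
  refine ⟨fun h0 => hz.1 ((map_eq_zero_iff σ σ.injective).1 h0), (h z).2 hz.2.1, ?_⟩
  rw [← map_inv₀]
  exact (h _).2 hz.2.2

lemma ine_one : Ine V (1 : κ ≃ₐ[k] κ) := ⟨dec_one V, fun z _ => by
  show z - z ∈ V.nonunits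
  rw [sub_self, non_iff, map_zero]; exact zero_lt_one⟩

lemma ine_mul {σ τ : κ ≃ₐ[k] κ} (h : Ine V σ) (h' : Ine V τ) : Ine V (σ * τ) :=
  ⟨dec_mul V h.1 h'.1, fun z hz => by
    show σ (τ z) - z ∈ V.nonunits
    have : σ (τ z) - z = (σ (τ z) - τ z) + (τ z - z) := by ring
    rw [this]
    exact non_add V (h.2 _ ((h'.1 z).2 hz)) (h'.2 z hz)⟩

lemma ine_inv {σ : κ ≃ₐ[k] κ} (h : Ine V σ) : Ine V σ⁻¹ :=
  ⟨dec_inv V h.1, fun z hz => by
    have h1 : σ (σ⁻¹ z) = z := σ.apply_symm_apply z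
    have h2 := h.2 (σ⁻¹ z) ((dec_inv V h.1 z).2 hz)
    rw [h1] at h2
    have : σ⁻¹ z - z = -(z - σ⁻¹ z) := by ring
    rw [this]
    exact non_neg V h2⟩

lemma ine_conj {φ σ : κ ≃ₐ[k] κ} (hφ : Dec V φ) (h : Ine V σ) : Ine V (φ * σ * φ⁻¹) :=
  ⟨dec_mul V (dec_mul V hφ h.1) (dec_inv V hφ), fun z hz => by
    show φ (σ (φ⁻¹ z)) - z ∈ V.nonunits
    have h1 : φ (φ⁻¹ z) = z := φ.apply_symm_apply z
    have h2 : φ (σ (φ⁻¹ z)) - z = φ (σ (φ⁻¹ z) - φ⁻¹ z) := by rw [map_sub, h1]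
    rw [h2, dec_non V hφ]
    exact h.2 _ ((dec_inv V hφ z).2 hz)⟩

/-- the subgroup of the elements of the inertia group which fix `δ` -/
def II (δ : κ) : Subgroup (κ ≃ₐ[k] κ) where
  carrier := {σ | Ine V σ ∧ σ δ = δ}
  mul_mem' := by
    rintro σ τ ⟨h1, h2⟩ ⟨h3, h4⟩
    refine ⟨ine_mul V h1 h3, ?_⟩
    show σ (τ δ) = δ
    rw [h4, h2]
  one_mem' := ⟨ine_one V, rfl⟩
  inv_mem' := by
    rintro σ ⟨h1, h2⟩
    refine ⟨ine_inv V h1, ?_⟩
    have : σ⁻¹ (σ δ) = δ := σ.symm_apply_apply δ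
    rwa [h2] at this

lemma mem_II {δ : κ} {σ : κ ≃ₐ[k] κ} : σ ∈ II V δ ↔ Ine V σ ∧ σ δ = δ := Iff.rfl

/-- inertia elements fix the roots of unity of order invertible in `V` -/
lemma ine_root {N : ℕ} (hN0 : N ≠ 0) (hN : IsU V (N : κ)) {σ : κ ≃ₐ[k] κ} (h : Ine V σ) {ξ : κ}
    (h1 : ξ ^ N = 1) : σ ξ = ξ := by
  have hU : IsU V ξ := isU_of_pow V hN0 (by rw [h1, isU_iff, map_one])
  have h2 : σ ξ / ξ = 1 := by
    refine root_one V hN ?_ ?_
    · rw [div_pow, ← map_pow, h1, map_one, div_one]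
    · have : σ ξ / ξ - 1 = ξ⁻¹ * (σ ξ - ξ) := by
        have := hU.1
        field_simp
      rw [this]
      exact mem_mul_non V hU.2.2 (h.2 ξ hU.2.1)
  rw [div_eq_one_iff_eq hU.1] at h2
  exact h2

/-- every algebraic element has a finite orbit -/
lemma fin_orbit [Algebra.IsAlgebraic k κ] (σ : κ ≃ₐ[k] κ) (c : κ) :
    ∃ r : ℕ, 0 < r ∧ (σ ^ r) c = c := by
  classical
  have hfin : (((minpoly k c).rootSet κ) : Set κ).Finite := (minpoly k c).rootSet_finite κ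
  have hint : IsIntegral k c := (Algebra.IsAlgebraic.isAlgebraic c).isIntegral
  have hmem : ∀ i : ℕ, (σ ^ i) c ∈ ((minpoly k c).rootSet κ : Set κ) := by
    intro i
    rw [Polynomial.mem_rootSet]
    refine ⟨minpoly.ne_zero hint, ?_⟩
    rw [Polynomial.aeval_algEquiv, AlgHom.comp_apply, minpoly.aeval, map_zero]
  obtain ⟨i, j, hij, h⟩ : ∃ i j : ℕ, i < j ∧ (σ ^ i) c = (σ ^ j) c := by
    by_contra hcon
    push Not at hcon
    refine Set.infinite_of_injective_forall_mem (f := fun i : ℕ => (σ ^ i) c) ?_ hmem hfin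
    intro i j h
    by_contra hne
    rcases lt_or_gt_of_ne hne with h1 | h1
    · exact hcon i j h1 h
    · exact hcon j i h1 h.symm
  refine ⟨j - i, by omega, ?_⟩
  have h2 : (σ ^ j) c = (σ ^ i) ((σ ^ (j - i)) c) := by
    rw [← AlgEquiv.mul_apply, ← pow_add]
    congr 2
    omega
  rw [h2] at h
  exact ((σ ^ i).injective h).symm

lemma dec_pow {σ : κ ≃ₐ[k] κ} (h : Dec V σ) (i : ℕ) : Dec V (σ ^ i) := by
  induction i with
  | zero => rw [pow_zero]; exact dec_one V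
  | succ i ih => rw [pow_succ]; exact dec_mul V ih h

lemma ine_pow {σ : κ ≃ₐ[k] κ} (h : Ine V σ) (i : ℕ) : Ine V (σ ^ i) := by
  induction i with
  | zero => rw [pow_zero]; exact ine_one V
  | succ i ih => rw [pow_succ]; exact ine_mul V ih h

/-- elements of the decomposition group preserve the value -/
lemma dec_val [Algebra.IsAlgebraic k κ] {σ : κ ≃ₐ[k] κ} (h : Dec V σ) (c : κ) :
    V.valuation (σ c) = V.valuation c := by
  by_cases hc : c = 0
  · rw [hc, map_zero]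
  obtain ⟨r, hr, hrc⟩ := fin_orbit σ c
  have hσc : σ c ≠ 0 := fun h0 => hc ((map_eq_zero_iff σ σ.injective).1 h0)
  have htel : ∀ i : ℕ, ∏ j ∈ range i, (σ ^ j) (σ c / c) = (σ ^ i) c / c := by
    intro i
    induction i with
    | zero => simp [hc]
    | succ i ih =>
      have hi : (σ ^ i) c ≠ 0 := fun h0 => hc ((map_eq_zero_iff _ (σ ^ i).injective).1 h0)
      rw [prod_range_succ, ih, map_div₀, ← AlgEquiv.mul_apply, ← pow_succ]
      field_simp
  have key : ∀ w : κ, w ≠ 0 → w ∈ V → ∏ j ∈ range r, (σ ^ j) w = 1 → w⁻¹ ∈ V := by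
    intro w hw hwV hp
    obtain ⟨r', rfl⟩ := Nat.exists_eq_succ_of_ne_zero hr.ne'
    rw [Nat.succ_eq_add_one, prod_range_succ', pow_zero, AlgEquiv.one_apply] at hp
    rw [← eq_inv_of_mul_eq_one_left hp]
    exact prod_mem fun j _ => (dec_pow V h (j + 1) w).2 hwV
  have hp : ∏ j ∈ range r, (σ ^ j) (σ c / c) = 1 := by rw [htel, hrc, div_self hc]
  have hw0 : σ c / c ≠ 0 := div_ne_zero hσc hc
  have hU : IsU V (σ c / c) := by
    rcases V.mem_or_inv_mem (σ c / c) with h1 | h1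
    · exact ⟨hw0, h1, key _ hw0 h1 hp⟩
    · refine ⟨hw0, ?_, h1⟩
      rw [← inv_inv (σ c / c)]
      refine key _ (inv_ne_zero hw0) h1 ?_
      simp_rw [map_inv₀]
      rw [prod_inv_distrib, hp, inv_one]
  rw [isU_iff, map_div₀, div_eq_one_iff_eq ((V.valuation.ne_zero_iff).2 hc)] at hU
  exact hU

/-- **the resolvent** -/
lemma resolvent [IsGalois k κ] (T : Subgroup (κ ≃ₐ[k] κ)) (χ : (κ ≃ₐ[k] κ) → κ)
    (h0 : ∀ σ ∈ T, χ σ ≠ 0) (hmul : ∀ σ ∈ T, ∀ σ' ∈ T, χ (σ * σ') = χ σ * χ σ')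
    (hfix : ∀ σ ∈ T, ∀ σ' ∈ T, σ (χ σ') = χ σ') (E : IntermediateField k κ)
    [FiniteDimensional k E] (hE : ∀ σ ∈ E.fixingSubgroup, σ ∈ T → χ σ = 1) :
    ∃ c : κ, c ≠ 0 ∧ ∀ σ ∈ T, σ c = χ σ * c := by
  classical
  obtain ⟨L, hL⟩ : ∃ L : IntermediateField k κ, L = IntermediateField.normalClosure k E κ :=
    ⟨_, rfl⟩
  have hEL : E ≤ L := by rw [hL]; exact IntermediateField.le_normalClosure E
  have : Normal k L := by rw [hL]; infer_instance
  have : FiniteDimensional k L := by rw [hL]; infer_instance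
  obtain ⟨res, hres⟩ : ∃ res : (κ ≃ₐ[k] κ) →* (L ≃ₐ[k] L), res = AlgEquiv.restrictNormalHom L :=
    ⟨_, rfl⟩
  have hresapp : ∀ (σ : κ ≃ₐ[k] κ) (x : L), ((res σ x : L) : κ) = σ x := fun σ x => by
    rw [hres]
    exact AlgEquiv.restrictNormal_commutes σ L x
  obtain ⟨T', hT'⟩ : ∃ T' : Subgroup (L ≃ₐ[k] L), T' = T.map res := ⟨_, rfl⟩
  have hlift : ∀ τ : T', ∃ σ : κ ≃ₐ[k] κ, σ ∈ T ∧ res σ = τ.1 := fun τ => by
    have h2 : τ.1 ∈ T.map res := by rw [← hT']; exact τ.2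
    obtain ⟨σ, hσ, h⟩ := h2
    exact ⟨σ, hσ, h⟩
  choose lft hlT hlres using hlift
  have : Finite (L ≃ₐ[k] L) := inferInstance
  have : Fintype T' := Fintype.ofFinite _
  have hsame : ∀ σ ∈ T, ∀ σ' ∈ T, res σ = res σ' → χ σ = χ σ' := by
    intro σ hσ σ' hσ' h
    have h1 : σ⁻¹ * σ' ∈ E.fixingSubgroup := by
      rw [IntermediateField.mem_fixingSubgroup_iff]
      intro x hx
      have h2 : ((res σ ⟨x, hEL hx⟩ : L) : κ) = ((res σ' ⟨x, hEL hx⟩ : L) : κ) := by rw [h]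
      rw [hresapp, hresapp] at h2
      simp only at h2
      change σ⁻¹ (σ' x) = x
      rw [← h2]
      exact σ.symm_apply_apply x
    have h3 := hE _ h1 (T.mul_mem (T.inv_mem hσ) hσ')
    have h4 := hmul σ hσ (σ⁻¹ * σ') (T.mul_mem (T.inv_mem hσ) hσ')
    rw [h3, mul_one, ← mul_assoc, mul_inv_cancel, one_mul] at h4
    exact h4.symm
  -- linear independence
  obtain ⟨f, hf⟩ : ∃ f : T' → (L →* κ), f = fun g : T' =>
    ((algebraMap L κ : L →* κ)).comp (((g : L ≃ₐ[k] L) : L →* L)) := ⟨_, rfl⟩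
  have hfapp : ∀ (g : T') (b : L), f g b = (((g : L ≃ₐ[k] L) b : L) : κ) := fun g b => by
    rw [hf]; rfl
  have hinj : Function.Injective f := by
    intro g g' h
    apply Subtype.ext
    apply AlgEquiv.ext
    intro b
    have : f g b = f g' b := by rw [h]
    rw [hfapp, hfapp] at this
    exact Subtype.ext this
  have hLI : LinearIndependent κ (fun g : T' => (f g : L → κ)) :=
    (linearIndependent_monoidHom L κ).comp f hinj
  obtain ⟨b, hb⟩ : ∃ b : L, ∑ g : T', (χ (lft g))⁻¹ * (((g : L ≃ₐ[k] L) b : L) : κ) ≠ 0 := by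
    by_contra hcon
    push Not at hcon
    have h1 := Fintype.linearIndependent_iff.1 hLI (fun g => (χ (lft g))⁻¹) (by
      funext b
      rw [Finset.sum_apply]
      simp only [Pi.smul_apply, smul_eq_mul, hfapp]
      exact hcon b) 1
    exact inv_ne_zero (h0 _ (hlT 1)) h1
  refine ⟨_, hb, fun σ hσ => ?_⟩
  have hmem : res σ ∈ T' := by rw [hT']; exact ⟨σ, hσ, rfl⟩
  obtain ⟨h, hh⟩ : ∃ h : T', h = ⟨res σ, hmem⟩ := ⟨_, rfl⟩
  rw [map_sum, Finset.mul_sum, ← Equiv.sum_comp (Equiv.mulLeft h)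
    (fun g : T' => χ σ * ((χ (lft g))⁻¹ * (((g : L ≃ₐ[k] L) b : L) : κ)))]
  refine Finset.sum_congr rfl fun g _ => ?_
  have e1 : χ (lft (h * g)) = χ σ * χ (lft g) := by
    rw [← hmul σ hσ _ (hlT g)]
    refine hsame _ (hlT _) _ (T.mul_mem hσ (hlT g)) ?_
    rw [hlres, map_mul, hlres, hh]
    rfl
  have e2 : (((((h * g : T') : L ≃ₐ[k] L)) b : L) : κ) = σ (((g : L ≃ₐ[k] L) b : L) : κ) := by
    rw [← hresapp, hh]
    rfl
  rw [Equiv.coe_mulLeft, e1, e2, map_mul, map_inv₀, hfix σ hσ _ (hlT g)]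
  have := h0 σ hσ
  have := h0 _ (hlT g)
  field_simp

end aut

end Pool.Agent.Y655.PS
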